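import Mathlib
import Pool.Agent.Lib.MP_55068a_an.H98NoRad

namespace Pool.Agent.Variants.MP_55068a_an.NoRadicals

open Pool.Agent.Lib.MP_55068a_an

theorem result (k : ℕ) (hk : 0 < k) : ∃ x : ℝ,
    IsGreatest (Vals k (7 * k) (-1 / 2) (-11 / 20)) x ∧ (x : ℂ) ∉ solvableByRad ℚ ℂ :=
  H98.no_radicals hk

end Pool.Agent.Variants.MP_55068a_an.NoRadicals
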