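import Mathlib
import Pool.Agent.Lib.MP_55068a_an.SmallCert

namespace Pool.Agent.Variants.MP_55068a_an.Quadruple

open Polynomial Pool.Agent.Lib.MP_55068a_an

/-- The root `y ≥ 1` of `(3 y^2 - 1)/2 + a y = |b|`. -/
noncomputable def Y (a b : ℝ) : ℝ := (-a + √(a ^ 2 + 3 + 6 * |b|)) / 3

/-- Closed form of `U_{k,4k}(a,b)`. -/
noncomputable def U (a b : ℝ) : ℝ :=
  if 0 ≤ a then
    (if b ^ 2 ≤ (1 + a) * (1 - a) ^ 2 then 1 - a ^ 2 - b ^ 2
      else -b ^ 4 / (1 - a) ^ 3 + (1 + 3 * a) * b ^ 2 / (1 - a) - a * (1 - a ^ 2))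
  else
    (if |b| ≤ 1 + a then 1 - a ^ 2 - b ^ 2
      else -3 * Y a b ^ 5 - 5 / 4 * a * Y a b ^ 4 + 3 * Y a b ^ 3 - 3 / 2 * a * Y a b ^ 2
        - 2 * a ^ 2 * Y a b + 3 / 4 * a)

theorem diamond {a b : ℝ} (h : |a| + |b| ≤ 1) : Cert 1 4 a b (1 - a ^ 2 - b ^ 2) := by
  apply cert14main
  simpa using stable_diamond h (m := 3) (l := 4) (by norm_num) (by norm_num)

theorem cert {a b : ℝ} (ha : |a| < 1) (hb : |b| ≤ 1 - a ^ 2) : Cert 1 4 a b (U a b) := by
  have ha' := abs_lt.1 ha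
  have hp : 0 < 1 - a := by linarith [ha'.2]
  have hq : 0 < 1 + a := by linarith [ha'.1]
  have hpq : 0 < 1 - a ^ 2 := by nlinarith
  rw [U]
  split_ifs with h0 h1 h1
  · rcases h0.eq_or_lt with h0 | h0
    · subst h0
      exact diamond (by simpa using hb)
    apply cert14main
    set g := b / (1 - a ^ 2) with hg
    have hbg : b = g * (1 - a ^ 2) := by rw [hg]; field_simp
    have hg1 : g ^ 2 * (1 + a) ≤ 1 := by
      have h2 : (g ^ 2 * (1 + a)) * ((1 + a) * (1 - a) ^ 2) ≤ 1 * ((1 + a) * (1 - a) ^ 2) := by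
        calc _ = b ^ 2 := by rw [hbg]; ring
          _ ≤ _ := by rwa [one_mul]
      exact le_of_mul_le_mul_right h2 (by positivity)
    have hg2 : g ^ 2 < 1 := by nlinarith [sq_nonneg g]
    have hg3 : |g| < 1 := by rwa [← sq_lt_one_iff_abs_lt_one]
    refine stable4 (t1 := -a * g) (t2 := 0) (t3 := g) ha.le (stable3 hg3 ?_ ?_) (by ring) (by ring)
      (by rw [hbg]; ring)
    · rw [show 0 - g * (-a * g) = a * g ^ 2 by ring, abs_of_nonneg (by positivity)]
      nlinarith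
    · rw [mul_zero, sub_zero, neg_mul, abs_neg, abs_mul, abs_of_pos h0,
        show 0 - g * -(a * g) = a * g ^ 2 by ring, ← sq_abs g]
      have h3 : 0 ≤ (1 - |g|) * (1 + |g| - a * |g|) :=
        mul_nonneg (by linarith) (by nlinarith [abs_nonneg g])
      nlinarith
  · push Not at h1
    set y := b / (1 - a) with hy
    have hb' : b = (1 - a) * y := by rw [hy]; field_simp
    have hy1 : 1 + a ≤ y ^ 2 := by
      have h2 : (1 + a) * (1 - a) ^ 2 ≤ y ^ 2 * (1 - a) ^ 2 := by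
        calc _ ≤ b ^ 2 := h1.le
          _ = _ := by rw [hb']; ring
      exact le_of_mul_le_mul_right h2 (by positivity)
    have hy2 : |y| ≤ 1 + a := by
      rw [hy, abs_div, abs_of_pos hp, div_le_iff₀ hp]; nlinarith
    have hv : -b ^ 4 / (1 - a) ^ 3 + (1 + 3 * a) * b ^ 2 / (1 - a) - a * (1 - a ^ 2)
        = (1 - a) * (-y ^ 4 + (1 + 3 * a) * y ^ 2 - a * (1 + a)) := by
      rw [hb']; field_simp; ring
    rw [hv]
    conv => arg 4; rw [hb']
    exact cert14two a y (stable2 ha.le hy2) hy1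
  · push Not at h0
    exact diamond (by rw [abs_of_neg h0]; linarith)
  · push Not at h0 h1
    set y := Y a b with hy
    have hb0 := abs_nonneg b
    have hsq := Real.sq_sqrt (show 0 ≤ a ^ 2 + 3 + 6 * |b| by positivity)
    have hs : √(a ^ 2 + 3 + 6 * |b|) = 3 * y + a := by rw [hy, Y]; ring
    have hy1 : 1 ≤ y := by
      have : 3 + a ≤ √(a ^ 2 + 3 + 6 * |b|) := Real.le_sqrt_of_sq_le (by nlinarith)
      linarith
    have hroot : |b| = (3 * y ^ 2 - 1) / 2 + a * y := by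
      rw [hs] at hsq; nlinarith
    have hP : y ≤ (3 * y ^ 2 - 1) / 2 := by nlinarith
    have k2 : |(3 * y ^ 2 - 1) / 2 + a * y| ≤ 1 - a ^ 2 := by rw [← hroot, abs_abs]; exact hb
    have k1 : |y + a * ((3 * y ^ 2 - 1) / 2)| ≤ 1 - a ^ 2 + ((3 * y ^ 2 - 1) / 2 + a * y) := by
      rw [abs_le]
      constructor
      · nlinarith [mul_nonneg hq.le (show 0 ≤ (3 * y ^ 2 - 1) / 2 + y by linarith)]
      · nlinarith [mul_nonneg hp.le (show 0 ≤ (3 * y ^ 2 - 1) / 2 - y by linarith)]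
    rcases abs_cases b with ⟨h2, -⟩ | ⟨h2, -⟩
    · have e : b = (3 * y ^ 2 - 1) / 2 + a * y := by rw [← hroot, h2]
      conv => arg 4; rw [e]
      refine cert14p a y (stable3 ha ?_ ?_) hy1
      · convert k2 using 2; ring
      · rw [← abs_neg]; convert k1 using 2 <;> ring
    · have e : b = -((3 * y ^ 2 - 1) / 2 + a * y) := by rw [← hroot, h2, neg_neg]
      conv => arg 4; rw [e]
      refine cert14m a y (stable3 (by rwa [abs_neg]) ?_ ?_) hy1
      · convert k2 using 2 <;> ring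
      · convert k1 using 2 <;> ring

theorem greatest {k : ℕ} (hk : 0 < k) {a b : ℝ} (ha : |a| < 1) (hb : |b| ≤ 1 - a ^ 2) :
    IsGreatest (Vals k (4 * k) a b) (U a b) := by
  have := ((cert ha hb).expand hk).isGreatest (by omega) ha
  rwa [mul_one, mul_comm] at this

theorem result (k : ℕ) (hk : 0 < k) (a b : ℝ) (ha : |a| < 1) (hb : |b| ≤ 1 - a ^ 2) :
    IsGreatest (Vals k (4 * k) a b) (U a b) ∧ IsLeast (Vals k (4 * k) a b) (-U (-a) (-b)) := by
  refine ⟨greatest hk ha hb, ?_⟩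
  have := greatest hk (a := -a) (b := -b) (by rwa [abs_neg]) (by rwa [abs_neg, neg_sq])
  rw [vals_neg] at this
  refine ⟨Set.mem_neg.1 this.1, fun x hx => ?_⟩
  have h := this.2 (Set.neg_mem_neg.2 hx)
  linarith

end Pool.Agent.Variants.MP_55068a_an.Quadruple
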