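import Mathlib
import Pool.Agent.Lib.MP_55068a_an.SmallCert

namespace Pool.Agent.Variants.MP_55068a_an.Triple

open Polynomial Pool.Agent.Lib.MP_55068a_an

/-- Closed form of `U_{k,3k}(a,b)`. -/
noncomputable def U (a b : ℝ) : ℝ :=
  if -(1 - |a|) ≤ b then 1 - a ^ 2 - b ^ 2 else b ^ 3 / (1 - |a|) ^ 2 - (1 + 2 * |a|) * b

theorem cert {a b : ℝ} (ha : |a| < 1) (hb : |b| ≤ 1 - a ^ 2) : Cert 1 3 a b (U a b) := by
  have ha0 := abs_nonneg a
  have ha2 : a ^ 2 = |a| ^ 2 := (sq_abs a).symm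
  rw [U]
  split_ifs with h
  · apply cert13main
    apply stable3 ha (by simpa using hb)
    rw [zero_sub, abs_neg, abs_mul, mul_zero, sub_zero]
    rcases abs_cases b with ⟨h1, h2⟩ | ⟨h1, h2⟩ <;> rw [h1] <;> nlinarith
  · push Not at h
    set t := |a| with ht
    have hp : 0 < 1 - t := by linarith
    set y := -b / (1 - t) with hy
    have hb' : b = -((1 - t) * y) := by rw [hy]; field_simp
    have hy1 : 1 ≤ y := by rw [hy, le_div_iff₀ hp]; linarith
    have hy2 : y ≤ 1 + t := by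
      rw [hy, div_le_iff₀ hp]
      have := neg_abs_le b
      nlinarith
    have hv : b ^ 3 / (1 - t) ^ 2 - (1 + 2 * t) * b = (1 - t) * y * (1 + 2 * t - y ^ 2) := by
      rw [hb']; field_simp; ring
    have ht1 : |t| ≤ 1 := by rw [abs_of_nonneg ha0]; exact ha.le
    rw [hv]
    conv => arg 4; rw [hb']
    rcases abs_cases a with ⟨h1, -⟩ | ⟨h1, -⟩
    · have := cert13p t y (stable2 ht1 (by rw [abs_neg, abs_of_nonneg (by linarith)]; exact hy2)) hy1
      have e : a = t := by rw [ht, h1]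
      conv => arg 3; rw [e]
      exact this
    · have := cert13m t y (stable2 ht1 (by rw [abs_of_nonneg (by linarith)]; exact hy2)) hy1
      have e : a = -t := by rw [ht, h1, neg_neg]
      conv => arg 3; rw [e]
      exact this

theorem greatest {k : ℕ} (hk : 0 < k) {a b : ℝ} (ha : |a| < 1) (hb : |b| ≤ 1 - a ^ 2) :
    IsGreatest (Vals k (3 * k) a b) (U a b) := by
  have := ((cert ha hb).expand hk).isGreatest (by omega) ha
  rwa [mul_one, mul_comm] at this

theorem result (k : ℕ) (hk : 0 < k) (a b : ℝ) (ha : |a| < 1) (hb : |b| ≤ 1 - a ^ 2) :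
    IsGreatest (Vals k (3 * k) a b) (U a b) ∧ IsLeast (Vals k (3 * k) a b) (-U (-a) (-b)) := by
  refine ⟨greatest hk ha hb, ?_⟩
  have := greatest hk (a := -a) (b := -b) (by rwa [abs_neg]) (by rwa [abs_neg, neg_sq])
  rw [vals_neg] at this
  refine ⟨Set.mem_neg.1 this.1, fun x hx => ?_⟩
  have h := this.2 (Set.neg_mem_neg.2 hx)
  linarith

end Pool.Agent.Variants.MP_55068a_an.Triple
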